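import Pool.Agent.Helper76.CV.Goals

/-!
PROJECT CV (MP_eec6f5_gt), packet CJT (helper73).
-/

set_option autoImplicit false

open scoped ContDiff
open Filter Topology

namespace Pool.Agent.Helper73.CV.CJT

open Pool.Agent.Helper76.CV

theorem t (h1 : JET1) (h2 : JET2) (h3 : JET3) : Pool.Agent.Helper76.CV.CJT := by
  intro r D P a T Y u v ξ hC hsym hidem hPa ha hT hY hev hξ hv
  obtain ⟨j1, j2, j3⟩ := h2 r P a T Y u ha hT hY
  obtain ⟨k1, k2, k3⟩ := h3 r D T Y u hC hT hY
  obtain ⟨l1, l2⟩ := h1 _ _ u j1 k1 (by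
    filter_upwards [hev] with u' hu'
    exact hu')
  rw [j2, k2] at l1
  rw [j2, j3, k3] at l2
  simp only [← hξ, ← hv] at l1 l2
  have hPξ : P ξ = ξ := by
    rw [hξ, map_sub, hidem, hPa]
  have hin : ∀ k, inner ℝ ξ (P k) = inner ℝ ξ k := by
    intro k
    rw [← hsym, hPξ]
  have e1 : inner ℝ (Y u - (sg v / v) • ξ) (deriv Y u) =
      inner ℝ (Y u) (deriv Y u) - sg v / v * inner ℝ ξ (deriv Y u) := by
    rw [inner_sub_left, real_inner_smul_left]
  have e2 : inner ℝ (Y u - (sg v / v) • ξ) (deriv (deriv Y) u) =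
      inner ℝ (Y u) (deriv (deriv Y) u) - sg v / v * inner ℝ ξ (deriv (deriv Y) u) := by
    rw [inner_sub_left, real_inner_smul_left]
  have e3 : inner ℝ ξ (P (deriv Y u) - deriv T u • deriv a (T u)) =
      inner ℝ ξ (deriv Y u) - deriv T u * inner ℝ ξ (deriv a (T u)) := by
    rw [inner_sub_right, real_inner_smul_right, hin]
  have e4 : inner ℝ ξ (P (deriv (deriv Y) u) - deriv (deriv T) u • deriv a (T u) -
          deriv T u ^ 2 • deriv (deriv a) (T u)) =
      inner ℝ ξ (deriv (deriv Y) u) - deriv (deriv T) u * inner ℝ ξ (deriv a (T u)) -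
        deriv T u ^ 2 * inner ℝ ξ (deriv (deriv a) (T u)) := by
    rw [inner_sub_right, inner_sub_right, real_inner_smul_right, real_inner_smul_right, hin]
  constructor
  · rw [e1]
    rw [e3] at l1
    linear_combination (-1 / 2) * l1
  · rw [e2]
    rw [e4] at l2
    unfold SQ
    linear_combination (-1 / 2) * l2

end Pool.Agent.Helper73.CV.CJT
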